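import Pool.Agent.Q44.WK.Stm

/-!
# Project WK (helper44), job UN: existence and uniqueness of chains
-/

set_option autoImplicit false

namespace Pool.Agent.Q150.WK.UN

open Pool.Agent.Q44.WK

theorem form : S_form := by
  intro F _ h2 D x y w hA i hi
  obtain ⟨c, hc, h⟩ := hA
  refine ⟨2 * y i ^ 2 / c, div_ne_zero (mul_ne_zero h2 (pow_ne_zero 2 hi)) hc, fun b => ?_⟩
  have e1 := h i b
  have e2 := h i i
  rw [div_mul_eq_mul_div, div_eq_iff hc]
  calc 2 * y i ^ 2 * w b = 2 * y i * (y i * w b + y b * w i) - (y i * w i + y i * w i) * y b := by ring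
    _ = _ := by
      rw [e1, e2]
      ring

/-! ### exchange of the planes -/

section

variable {F : Type} [Field F]

theorem lin_swap (D : Dat F) (x y : V F) : D.swap.lin y x = D.lin x y := by
  simp only [Dat.lin, Dat.swap, Fin.sum_univ_three]
  ring

theorem quad_swap (D : Dat F) (x y : V F) : D.swap.quad y x = D.quad x y := by
  simp only [Dat.quad, Dat.swap, Fin.sum_univ_three]
  ring

theorem on_swap (D : Dat F) (x y : V F) : D.swap.On y x ↔ D.On x y := by
  unfold Dat.On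
  rw [lin_swap, quad_swap]
  tauto

omit [Field F] in
theorem swap_swap (D : Dat F) : D.swap.swap = D := rfl

omit [Field F] in
theorem alt_succ (D : Dat F) (k : ℕ) : D.alt (k + 1) = (D.alt k).swap := by
  unfold Dat.alt
  rcases Nat.mod_two_eq_zero_or_one k with h | h
  · have h' : (k + 1) % 2 = 1 := by omega
    simp [h, h']
  · have h' : (k + 1) % 2 = 0 := by omega
    simp [h, h', swap_swap]

theorem on_alt (D : Dat F) (k : ℕ) (x y : V F) : (D.alt (k + 1)).On y x ↔ (D.alt k).On x y := by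
  rw [alt_succ, on_swap]

omit [Field F] in
theorem alt_congr (D : Dat F) {k l : ℕ} (h : k % 2 = l % 2) : D.alt k = D.alt l := by
  unfold Dat.alt
  rw [h]

theorem fin_alt (D : Dat F) (h1 : D.Fin1) (h2 : D.swap.Fin1) (k : ℕ) : (D.alt k).Fin1 := by
  unfold Dat.alt
  split_ifs
  · exact h1
  · exact h2

end

theorem ex (h : S_step) : S_ex := by
  intro F _ h2 D hF1 hF2 x y hxy
  have hstep : ∀ (k : ℕ) (p : V F × V F), (D.alt k).On p.1 p.2 →
      ∃ q : V F, (D.alt (k + 1)).On p.2 q ∧ (D.alt (k + 1)).Adj p.2 p.1 q := by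
    intro k p hp
    have h3 := (on_alt D k p.1 p.2).2 hp
    obtain ⟨q, h4, h5, -⟩ := h F h2 (D.alt (k + 1)) p.2 p.1 h3 (fin_alt D hF1 hF2 _ _ h3.1)
    exact ⟨q, h4, h5⟩
  choose! nxt hn1 hn2 using hstep
  set s : ℕ → V F × V F := fun n => Nat.rec (x, y) (fun k p => (p.2, nxt k p)) n with hs
  have hs0 : s 0 = (x, y) := rfl
  have hss : ∀ k, s (k + 1) = ((s k).2, nxt k (s k)) := fun k => rfl
  have hon : ∀ k, (D.alt k).On (s k).1 (s k).2 := by
    intro k
    induction k with
    | zero =>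
      rw [hs0]
      exact hxy
    | succ k ih =>
      rw [hss]
      exact hn1 k (s k) ih
  refine ⟨fun k => (s k).1, rfl, rfl, fun k => ?_⟩
  exact ⟨hon k, hn2 k (s k) (hon k)⟩

/-! ### homogeneity -/

section

variable {F : Type} [Field F]

theorem lam_smul (D : Dat F) (s : F) (x : V F) : D.lam (s • x) = s • D.lam x := by
  funext j
  simp only [Dat.lam, Pi.smul_apply, smul_eq_mul, Fin.sum_univ_three]
  ring

theorem sym_smul (D : Dat F) (s : F) (x : V F) (k l : Fin 3) :
    D.sym (s • x) k l = s ^ 2 * D.sym x k l := by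
  simp only [Dat.sym, Pi.smul_apply, smul_eq_mul, Fin.sum_univ_three]
  ring

theorem cr_smul (s : F) (v : V F) (a k : Fin 3) : Dat.cr (s • v) a k = s * Dat.cr v a k := by
  fin_cases a <;> fin_cases k <;> simp [Dat.cr]

theorem G_smul (D : Dat F) (s : F) (x : V F) (a b : Fin 3) : D.G (s • x) a b = s ^ 4 * D.G x a b := by
  unfold Dat.G
  rw [Finset.mul_sum]
  refine Finset.sum_congr rfl fun k _ => ?_
  rw [Finset.mul_sum]
  refine Finset.sum_congr rfl fun l _ => ?_
  rw [lam_smul, sym_smul, cr_smul, cr_smul]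
  ring

theorem adj_symm (D : Dat F) {x y w : V F} (h : D.Adj x y w) : D.Adj x w y := by
  obtain ⟨c, hc, h⟩ := h
  refine ⟨c, hc, fun a b => ?_⟩
  rw [← h a b]
  ring

/-- the second point is determined up to scalars -/
theorem key (h2 : (2 : F) ≠ 0) (D : Dat F) {x y w x' y' w' : V F} (h : D.Adj x y w) (h' : D.Adj x' y' w')
    (hy : y' ≠ 0) {s t : F} (hs : s ≠ 0) (ht : t ≠ 0) (hx : x = s • x') (hyt : y = t • y') :
    ∃ u : F, u ≠ 0 ∧ w = u • w' := by
  obtain ⟨i, hi⟩ : ∃ i, y' i ≠ 0 := by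
    by_contra hcon
    push Not at hcon
    exact hy (funext hcon)
  have hi' : y i ≠ 0 := by
    rw [hyt, Pi.smul_apply, smul_eq_mul]
    exact mul_ne_zero ht hi
  obtain ⟨c, hc, e⟩ := form F h2 D x y w h i hi'
  obtain ⟨c', hc', e'⟩ := form F h2 D x' y' w' h' i hi
  refine ⟨s ^ 4 * t * c' / c, div_ne_zero (mul_ne_zero (mul_ne_zero (pow_ne_zero 4 hs) ht) hc') hc, ?_⟩
  funext b
  have e1 := e b
  have e2 := e' b
  rw [hx, hyt, G_smul, G_smul, Pi.smul_apply, Pi.smul_apply, smul_eq_mul, smul_eq_mul] at e1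
  rw [Pi.smul_apply, smul_eq_mul, div_mul_eq_mul_div, eq_div_iff hc]
  calc w b * c = c * w b := mul_comm _ _
    _ = s ^ 4 * t * (2 * y' i * D.G x' i b - D.G x' i i * y' b) := by
      rw [e1]
      ring
    _ = _ := by
      rw [← e2]
      ring

end

theorem uni : S_uni := by
  intro F _ h2 D z hz k l hkl hk hk1
  have hne : ∀ m, z m ≠ 0 := fun m => (hz m).1.1
  constructor
  · have hf : ∀ j, (∃ s : F, s ≠ 0 ∧ z (k + j) = s • z (l + j)) ∧
        ∃ s : F, s ≠ 0 ∧ z (k + j + 1) = s • z (l + j + 1) := by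
      intro j
      induction j with
      | zero => exact ⟨hk, hk1⟩
      | succ j ih =>
        obtain ⟨⟨s, hs, h1⟩, t, ht, h3⟩ := ih
        refine ⟨⟨t, ht, h3⟩, ?_⟩
        have a1 := (hz (k + j)).2
        have a2 := (hz (l + j)).2
        rw [alt_congr D (by omega : (k + j + 1) % 2 = (l + j + 1) % 2)] at a1
        exact key h2 _ a1 a2 (hne _) ht hs h3 h1
    exact fun j => (hf j).1
  · have hb : ∀ j, j ≤ k → j ≤ l → (∃ s : F, s ≠ 0 ∧ z (k - j) = s • z (l - j)) ∧
        ∃ s : F, s ≠ 0 ∧ z (k - j + 1) = s • z (l - j + 1) := by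
      intro j
      induction j with
      | zero => exact fun _ _ => ⟨hk, hk1⟩
      | succ j ih =>
        intro hjk hjl
        obtain ⟨⟨s, hs, h1⟩, t, ht, h3⟩ := ih (by omega) (by omega)
        obtain ⟨m, hm⟩ : ∃ m, m = k - (j + 1) := ⟨_, rfl⟩
        obtain ⟨n, hn⟩ : ∃ n, n = l - (j + 1) := ⟨_, rfl⟩
        have e1 : k - j = m + 1 := by omega
        have e2 : l - j = n + 1 := by omega
        rw [e1, e2] at h1 h3
        rw [← hm, ← hn]
        refine ⟨?_, ⟨s, hs, h1⟩⟩
        have a1 := (hz m).2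
        have a2 := (hz n).2
        rw [alt_congr D (by omega : (m + 1) % 2 = (n + 1) % 2)] at a1
        exact key h2 _ (adj_symm _ a1) (adj_symm _ a2) (hne _) hs ht h1 h3
    exact fun j h3 h4 => (hb j h3 h4).1

end Pool.Agent.Q150.WK.UN
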